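import Pool.Agent.H15.UB.Targets

/-!
# Row ES of the board `ubs_modules`: the theorem of Eakin and Sathaye for one generator
-/

set_option autoImplicit false

open Module

namespace Pool.Agent.H21.UB

open Pool.Agent.H15.UB Pool.Agent.H15.Defect

universe u

variable {k : Type u} [Field k] {B : Type u} [CommRing B] [Algebra k B]

/-- products of `n` elements of `V` -/
def Pr (V : Submodule k B) (n : ℕ) : Set B :=
  {z | ∃ y : Fin n → B, (∀ i, y i ∈ V) ∧ z = ∏ i, y i}

theorem pr_zero (V : Submodule k B) (z : B) : z ∈ Pr V 0 ↔ z = 1 := by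
  constructor
  · rintro ⟨y, -, rfl⟩
    simp
  · rintro rfl
    exact ⟨fun i => i.elim0, fun i => i.elim0, by simp⟩

theorem pr_succ (V : Submodule k B) (n : ℕ) (z : B) :
    z ∈ Pr V (n + 1) ↔ ∃ x ∈ V, ∃ z' ∈ Pr V n, z = x * z' := by
  constructor
  · rintro ⟨y, hy, rfl⟩
    exact ⟨y 0, hy 0, ∏ i, y (Fin.succ i), ⟨fun i => y i.succ, fun i => hy _, rfl⟩,
      Fin.prod_univ_succ y⟩
  · rintro ⟨x, hx, _, ⟨y, hy, rfl⟩, rfl⟩
    refine ⟨Fin.cons x y, fun i => ?_, ?_⟩
    · refine Fin.cases ?_ (fun j => ?_) i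
      · simpa using hx
      · simpa using hy j
    · rw [Fin.prod_univ_succ]
      simp

theorem pr_nonempty (V : Submodule k B) (n : ℕ) : (Pr V n).Nonempty :=
  ⟨∏ _i : Fin n, (0 : B), fun _ => 0, fun _ => V.zero_mem, rfl⟩

theorem pow_le_span_pr (V : Submodule k B) (n : ℕ) : V ^ n ≤ Submodule.span k (Pr V n) := by
  induction n with
  | zero =>
    rw [pow_zero, Submodule.one_eq_span, Submodule.span_le]
    rintro _ rfl
    exact Submodule.subset_span ((pr_zero V 1).2 rfl)
  | succ n ih =>
    rw [pow_succ']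
    refine Submodule.mul_le.2 fun x hx y hy => ?_
    have h1 := ih hy
    clear hy
    induction h1 using Submodule.span_induction with
    | mem z hz => exact Submodule.subset_span ((pr_succ V n _).2 ⟨x, hx, z, hz, rfl⟩)
    | zero => rw [mul_zero]; exact Submodule.zero_mem _
    | add a b _ _ ha hb => rw [mul_add]; exact Submodule.add_mem _ ha hb
    | smul c a _ ha => rw [mul_smul_comm]; exact Submodule.smul_mem _ c ha

/-- A linearly independent family in a subspace. -/
theorem card_le_fr [Module.Finite k B] (M : Submodule k B) (a : ℕ) (w : Fin a → B)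
    (hw : ∀ i, w i ∈ M) (h : LinearIndependent k w) : a ≤ finrank k M := by
  have h1 : LinearIndependent k (fun i => (⟨w i, hw i⟩ : M)) :=
    LinearIndependent.of_comp M.subtype h
  have h2 := h1.fintype_card_le_finrank
  rwa [Fintype.card_fin] at h2

/-- A basis of `V ^ m * z`. -/
theorem exists_li [Module.Finite k B] (M : Submodule k B) (z : B) :
    ∃ v : Fin (finrank k (M * Submodule.span k {z} : Submodule k B)) → B,
      (∀ i, v i ∈ M) ∧ LinearIndependent k (fun i => v i * z) := by
  let b := finBasis k (M * Submodule.span k {z} : Submodule k B)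
  have h1 : ∀ i, ∃ v ∈ M, v * z = (b i : B) := fun i =>
    Submodule.mem_mul_span_singleton.1 (b i).2
  choose v hv hvz using h1
  refine ⟨v, hv, ?_⟩
  have h2 : (fun i => v i * z) = (M * Submodule.span k {z} : Submodule k B).subtype ∘ b := by
    funext i
    exact hvz i
  rw [h2]
  exact b.linearIndependent.map' _ (Submodule.ker_subtype _)

/-- Persistence along the curve `Y t`. -/
theorem persist (hP : T_PERS.{u}) [Module.Finite k B] (M : Submodule k B) (c : B) {n : ℕ}
    (y y' : Fin n → B) (t₀ : k) :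
    {t : k | ¬ finrank k (M * Submodule.span k {c * ∏ i, (y i + t₀ • (y' i - y i))} :
      Submodule k B) ≤ finrank k (M * Submodule.span k {c * ∏ i, (y i + t • (y' i - y i))} :
      Submodule k B)}.Finite := by
  obtain ⟨v, hv, hli⟩ := exists_li M (c * ∏ i, (y i + t₀ • (y' i - y i)))
  let w : Fin (finrank k (M * Submodule.span k {c * ∏ i, (y i + t₀ • (y' i - y i))} :
      Submodule k B)) → Polynomial B := fun i => Polynomial.C (v i * c) *
    ∏ j, (Polynomial.C (y j) + Polynomial.X * Polynomial.C (y' j - y j))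
  have hw : ∀ (t : k) i, (w i).eval (algebraMap k B t) =
      v i * (c * ∏ j, (y j + t • (y' j - y j))) := by
    intro t i
    simp only [w, Polynomial.eval_mul, Polynomial.eval_C, Polynomial.eval_prod,
      Polynomial.eval_add, Polynomial.eval_X, Algebra.smul_def]
    ring
  refine (hP k B _ w t₀ ?_).subset ?_
  · simp only [hw]
    exact hli
  · intro t ht hcon
    apply ht
    simp only [hw] at hcon
    exact card_le_fr _ _ _ (fun i => Submodule.mem_mul_span_singleton.2 ⟨v i, hv i, rfl⟩) hcon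

theorem persist' (hP : T_PERS.{u}) [Module.Finite k B] (M : Submodule k B) (c : B) {n : ℕ}
    (y y' : Fin n → B) (t₀ : k) (Y : B) (hY : c * ∏ i, (y i + t₀ • (y' i - y i)) = Y) :
    {t : k | ¬ finrank k (M * Submodule.span k {Y} :
      Submodule k B) ≤ finrank k (M * Submodule.span k {c * ∏ i, (y i + t • (y' i - y i))} :
      Submodule k B)}.Finite := by
  subst hY
  exact persist hP M c y y' t₀

theorem shift_le (V : Submodule k B) (j : ℕ) (x z : B) (hx : x ∈ V) :
    V ^ j * Submodule.span k {x * z} ≤ V ^ (j + 1) * Submodule.span k {z} := by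
  refine Submodule.mul_le.2 fun a ha b hb => ?_
  obtain ⟨c, rfl⟩ := Submodule.mem_span_singleton.1 hb
  refine Submodule.mem_mul_span_singleton.2 ⟨a * (c • x), ?_, ?_⟩
  · rw [pow_succ]
    exact Submodule.mul_mem_mul ha (V.smul_mem c hx)
  · rw [mul_assoc, smul_mul_assoc]

theorem mem_pr (V : Submodule k B) {n : ℕ} (y : Fin n → B) (hy : ∀ i, y i ∈ V) :
    ∏ i, y i ∈ Pr V n := ⟨y, hy, rfl⟩

theorem span_mul_singleton (x y : B) :
    Submodule.span k {x} * Submodule.span k {y} = Submodule.span k {x * y} := by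
  rw [Submodule.span_mul_span, Set.singleton_mul_singleton]

theorem pf_ES (hP : T_PERS.{u}) (hL : T_LOC.{u}) : T_ES.{u} := by
  intro k _ _ B _ _ _ V s hs hfr
  -- the function `f`
  let S : ℕ → Set ℕ := fun j =>
    {r | ∃ z ∈ Pr V (s - j), finrank k (V ^ j * Submodule.span k {z} : Submodule k B) = r}
  have hSne : ∀ j, (S j).Nonempty := fun j => by
    obtain ⟨z, hz⟩ := pr_nonempty V (s - j)
    exact ⟨_, z, hz, rfl⟩
  have hSbd : ∀ j, BddAbove (S j) := fun j => by
    refine ⟨finrank k B, ?_⟩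
    rintro _ ⟨z, -, rfl⟩
    exact Submodule.finrank_le _
  obtain ⟨f, hf⟩ : ∃ f : ℕ → ℕ, f = fun j => sSup (S j) := ⟨_, rfl⟩
  have hfmem : ∀ j, ∃ z ∈ Pr V (s - j),
      finrank k (V ^ j * Submodule.span k {z} : Submodule k B) = f j := fun j => by
    rw [hf]
    exact Nat.sSup_mem (hSne j) (hSbd j)
  have hfle : ∀ j, ∀ z ∈ Pr V (s - j),
      finrank k (V ^ j * Submodule.span k {z} : Submodule k B) ≤ f j := fun j z hz => by
    rw [hf]
    exact le_csSup (hSbd j) ⟨z, hz, rfl⟩
  clear_value S
  clear hf hSne hSbd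
  -- (1)
  have hmono : ∀ j, j < s → f j ≤ f (j + 1) := by
    intro j hj
    obtain ⟨z, hz, hzf⟩ := hfmem j
    have h1 : s - j = (s - (j + 1)) + 1 := by omega
    rw [h1, pr_succ] at hz
    obtain ⟨x, hx, z', hz', rfl⟩ := hz
    rw [← hzf]
    exact le_trans (Submodule.finrank_mono (shift_le V j x z' hx)) (hfle (j + 1) z' hz')
  have hfs : f s ≤ s := by
    obtain ⟨z, hz, hzf⟩ := hfmem s
    rw [Nat.sub_self, pr_zero] at hz
    subst hz
    rw [← hzf, ← Submodule.one_eq_span, mul_one]
    exact hfr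
  -- (2)
  rcases Nat.eq_zero_or_pos (f 0) with h0 | h0
  · refine ⟨0, V.zero_mem, ?_⟩
    have h1 : V ^ s ≤ ⊥ := by
      refine (pow_le_span_pr V s).trans (Submodule.span_le.2 fun z hz => ?_)
      have h2 := hfle 0 z (by simpa using hz)
      rw [h0, pow_zero, one_mul] at h2
      have h3 : finrank k (Submodule.span k {z} : Submodule k B) = 0 := Nat.le_zero.1 h2
      have h4 := Submodule.finrank_eq_zero.1 h3
      rw [Submodule.span_singleton_eq_bot] at h4
      rw [h4]
      exact Submodule.zero_mem _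
    exact h1.trans bot_le
  -- (3)
  have h3 : ∃ j, j < s ∧ f j = f (j + 1) := by
    by_contra hcon
    push Not at hcon
    have h4 : ∀ j, j ≤ s → j + 1 ≤ f j := by
      intro j
      induction j with
      | zero => intro _; exact h0
      | succ j ih =>
        intro hj
        have h5 := ih (by omega)
        have h6 := hmono j (by omega)
        have h7 := hcon j (by omega)
        omega
    have h5 := h4 s le_rfl
    omega
  -- (4)
  have hstep : ∀ j, 1 ≤ j → j < s → f (j - 1) = f j → f (j + 1) ≤ f j := by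
    intro j hj1 hjs heq
    obtain ⟨n, hn⟩ : ∃ n, s = n + j + 1 := ⟨s - j - 1, by omega⟩
    obtain ⟨i, hi⟩ : ∃ i, j = i + 1 := ⟨j - 1, by omega⟩
    subst hi
    obtain ⟨z1, hz1, hz1f⟩ := hfmem (i + 1 + 1)
    obtain ⟨z0, hz0, hz0f⟩ := hfmem i
    have e1 : s - (i + 1 + 1) = n := by omega
    have e0 : s - i = n + 1 + 1 := by omega
    have e2 : s - (i + 1) = n + 1 := by omega
    rw [e1] at hz1
    rw [e0, pr_succ] at hz0
    obtain ⟨x1, hx1, z2, hz2, rfl⟩ := hz0
    rw [pr_succ] at hz2
    obtain ⟨x2, hx2, z3, ⟨y0, hy0, rfl⟩, rfl⟩ := hz2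
    obtain ⟨y1, hy1, rfl⟩ := hz1
    have f1 := persist' hP (V ^ (i + 1 + 1)) 1 y1 y0 0 (∏ l, y1 l) (by simp)
    have f2 := persist' hP (V ^ i) (x1 * x2) y1 y0 1 (x1 * (x2 * ∏ l, y0 l))
      (by simp [mul_assoc])
    obtain ⟨t, ht⟩ := (f1.union f2).infinite_compl.nonempty
    have ht1 : finrank k (V ^ (i + 1 + 1) * Submodule.span k {∏ l, y1 l} : Submodule k B) ≤
        finrank k (V ^ (i + 1 + 1) * Submodule.span k {1 * ∏ l, (y1 l + t • (y0 l - y1 l))} :
          Submodule k B) := by
      by_contra hcon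
      exact ht (Or.inl hcon)
    have ht2 : finrank k (V ^ i * Submodule.span k {x1 * (x2 * ∏ l, y0 l)} : Submodule k B) ≤
        finrank k (V ^ i * Submodule.span k {x1 * x2 * ∏ l, (y1 l + t • (y0 l - y1 l))} :
          Submodule k B) := by
      by_contra hcon
      exact ht (Or.inr hcon)
    rw [one_mul] at ht1
    have hY : ∀ l, y1 l + t • (y0 l - y1 l) ∈ V := fun l =>
      V.add_mem (hy1 l) (V.smul_mem t (V.sub_mem (hy0 l) (hy1 l)))
    have hYp := mem_pr V _ hY
    generalize hYY : (∏ l, (y1 l + t • (y0 l - y1 l))) = Y at ht1 ht2 hYp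
    have h5 := hL k B V (V ^ i * Submodule.span k {Y}) (f (i + 1)) (by
      intro x hx
      have h6 : Submodule.span k {x} * (V * (V ^ i * Submodule.span k {Y})) =
          V ^ (i + 1) * Submodule.span k {x * Y} := by
        rw [← span_mul_singleton, pow_succ]
        ring
      rw [h6]
      refine hfle (i + 1) (x * Y) ?_
      rw [e2, pr_succ]
      exact ⟨x, hx, Y, hYp, rfl⟩) ⟨x1, hx1, x2, hx2, by
      have h6 : Submodule.span k {x1 * x2} * (V ^ i * Submodule.span k {Y}) =
          V ^ i * Submodule.span k {x1 * x2 * Y} := by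
        rw [← span_mul_singleton (x1 * x2) Y]
        ring
      rw [h6, ← heq, Nat.add_sub_cancel, ← hz0f]
      exact ht2⟩
    have h7 : V * (V * (V ^ i * Submodule.span k {Y})) =
        V ^ (i + 1 + 1) * Submodule.span k {Y} := by
      rw [pow_succ, pow_succ]
      ring
    rw [h7] at h5
    rw [← hz1f]
    exact ht1.trans h5
  -- (5)
  obtain ⟨j, hjs, hj⟩ := h3
  have h6 : ∀ m, j + m + 1 ≤ s → f (j + m) = f (j + m + 1) := by
    intro m
    induction m with
    | zero => intro _; exact hj
    | succ m ih =>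
      intro hm
      have h7 := ih (by omega)
      have h8 := hstep (j + m + 1) (by omega) (by omega) (by rw [Nat.add_sub_cancel]; exact h7)
      have h9 := hmono (j + m + 1) (by omega)
      have e : j + (m + 1) = j + m + 1 := rfl
      rw [e]
      omega
  obtain ⟨m, hm⟩ : ∃ m, s = j + m + 1 := ⟨s - j - 1, by omega⟩
  have h7 := h6 m (by omega)
  obtain ⟨z, hz, hzf⟩ := hfmem (j + m)
  have e1 : s - (j + m) = 0 + 1 := by omega
  rw [e1, pr_succ] at hz
  obtain ⟨x, hx, z', hz', rfl⟩ := hz
  rw [pr_zero] at hz'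
  subst hz'
  refine ⟨x, hx, ?_⟩
  have e2 : s - 1 = j + m := by omega
  rw [e2]
  have h8 : Submodule.span k {x} * V ^ (j + m) ≤ V ^ s := by
    rw [hm, pow_succ, mul_comm (Submodule.span k {x})]
    exact mul_le_mul' le_rfl (Submodule.span_le.2 (by
      rintro _ rfl
      exact hx))
  have h9 : fr k (V ^ s) = f s := by
    obtain ⟨z, hz, hzf⟩ := hfmem s
    rw [Nat.sub_self, pr_zero] at hz
    subst hz
    rw [← hzf, ← Submodule.one_eq_span, mul_one]
  refine (Submodule.eq_of_le_of_finrank_le h8 ?_).ge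
  rw [mul_comm (Submodule.span k {x})]
  rw [mul_one] at hzf
  change fr k (V ^ s) ≤ _
  rw [h9, hzf, h7, hm]

end Pool.Agent.H21.UB
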